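import Pool.Agent.Helper60.MA.GDefs

/-!
# Block GC: what the generic filter catches
-/

set_option linter.unusedSectionVars false
set_option linter.unusedVariables false

namespace Pool.Agent.Helper60.MA

open Pool.Agent.Helper96.Fc Cardinal Ordinal
open Pool.Agent.Helper89.FV (nat om Tab)

variable {Ω L : Type} [LinearOrder Ω] [LinearOrder L] [WellFoundedLT Ω] {S : Sys Ω L}

namespace GC

theorem gr_true {G : Set (Cd Ω)} {e : Ω} {k : ℕ} :
    gr G e k = true ↔ ∃ p ∈ G, ∃ t, (p e).word[k]? = some (true, t) := by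
  classical
  rw [gr, decide_eq_true_iff]

theorem rl_true {G : Set (Cd Ω)} {ν : Ω} {k : ℕ} :
    rl S G ν k = true ↔ ∃ n, (S.dec ν k n).1 ∈ G ∧ (S.dec ν k n).2 = true := by
  classical
  rw [rl, decide_eq_true_iff]

theorem gk_true {G : Set (Cd Ω)} {e : Ω} {k : ℕ} :
    gk G e k = true ↔ ∃ p ∈ G, ∃ a b, (p e).stem = a ++ b ∧ a.flatten.length = k := by
  classical
  rw [gk, decide_eq_true_iff]

theorem eq_false' {b : Bool} (h : b = true → False) : b = false := by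
  cases b with
  | true => exact (h rfl).elim
  | false => rfl

theorem getElem?_of_prefix {A : Type} {w w' : List A} (h : w <+: w') {k : ℕ} {s : A}
    (hk : w[k]? = some s) : w'[k]? = some s := by
  obtain ⟨d, rfl⟩ := h
  rw [List.getElem?_append_left (List.getElem?_eq_some_iff.1 hk).1, hk]

theorem word_compat {E : Set Ω} {G : Set (Cd Ω)} (h : Gen S E G) {e : Ω} {p q : Cd Ω}
    (hp : p ∈ G) (hq : q ∈ G) {k : ℕ} {s t : Sym} (h1 : (p e).word[k]? = some s)
    (h2 : (q e).word[k]? = some t) : s = t := by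
  obtain ⟨r, -, hrp, hrq⟩ := h.dir p hp q hq
  have h3 := getElem?_of_prefix (hrp.word e) h1
  have h4 := getElem?_of_prefix (hrq.word e) h2
  rw [h3] at h4
  exact Option.some.inj h4

theorem gr_of {E : Set Ω} {G : Set (Cd Ω)} (h : Gen S E G) {e : Ω} {p : Cd Ω}
    (hp : p ∈ G) {k : ℕ} {i t : Bool} (h1 : (p e).word[k]? = some (i, t)) : gr G e k = i := by
  cases i with
  | true => exact gr_true.2 ⟨p, hp, t, h1⟩
  | false =>
    refine eq_false' fun h0 => ?_
    obtain ⟨q, hq, t', h2⟩ := gr_true.1 h0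
    have h3 := word_compat h hp hq h1 h2
    simp at h3

theorem rl_of {E : Set Ω} {G : Set (Cd Ω)} (h : Gen S E G) {e ν : Ω} (hν : S.Nme e ν)
    {q : Cd Ω} (hq : q ∈ G) {k : ℕ} {i : Bool} (hs : S.Says (S.Le q) ν k i) :
    rl S G ν k = i := by
  obtain ⟨n, h1, h2⟩ := hs
  have h3 : (S.dec ν k n).1 ∈ G := h.up q hq _ (hν.mem k n).cond h2
  cases i with
  | true => exact rl_true.2 ⟨n, h3, h1⟩
  | false =>
    refine eq_false' fun h0 => ?_
    obtain ⟨m, h4, h5⟩ := rl_true.1 h0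
    obtain ⟨r, hr, hr1, hr2⟩ := h.dir _ h3 _ h4
    have hc : S.CondB e (Sys.cut e r) := (h.cond r hr).cut e
    have key : ∀ n, S.Le r (S.dec ν k n).1 → S.Le (Sys.cut e r) (S.dec ν k n).1 := fun n hn =>
      (hν.mem k n).le_of_leB hc.cond (Sys.LeB_cut_left.2 (hn.leB e))
    have h6 := hν.coh k n m (Sys.cut e r) hc (key n hr1) (key m hr2)
    rw [h1, h5] at h6
    exact Bool.false_ne_true h6

theorem rl_of_leB {E : Set Ω} {G : Set (Cd Ω)} (h : Gen S E G) {e ν : Ω} (hν : S.Nme e ν)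
    {q : Cd Ω} (hq : q ∈ G) {k : ℕ} {i : Bool} (hs : S.Says (S.LeB e q) ν k i) :
    rl S G ν k = i := by
  obtain ⟨n, h1, h2⟩ := hs
  exact rl_of h hν hq ⟨n, h1, (hν.mem k n).le_of_leB (h.cond q hq) h2⟩

theorem find_block : ∀ {bs s : List (List Sym)} {k : ℕ} {x : Sym},
    (s ++ bs).flatten[k]? = some x → s.flatten.length ≤ k →
    ∃ a β c, bs = a ++ β :: c ∧ ∃ j, β[j]? = some x ∧ (s ++ a).flatten.length + j = k := by
  intro bs
  induction bs with
  | nil =>
    intro s k x h hk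
    rw [List.append_nil] at h
    exact absurd (List.getElem?_eq_some_iff.1 h).1 (not_lt.2 hk)
  | cons b bs ih =>
    intro s k x h hk
    by_cases hkb : (s ++ [b]).flatten.length ≤ k
    · have h1 : ((s ++ [b]) ++ bs).flatten[k]? = some x := by
        rw [List.append_assoc]
        exact h
      obtain ⟨a, β, c, h2, j, h3, h4⟩ := ih h1 hkb
      refine ⟨b :: a, β, c, by rw [h2]; rfl, j, h3, ?_⟩
      rw [← h4, List.append_assoc]
      rfl
    · rw [not_le] at hkb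
      refine ⟨[], b, bs, rfl, k - s.flatten.length, ?_, ?_⟩
      · rw [List.flatten_append, List.flatten_cons, List.getElem?_append_right hk,
          List.getElem?_append_left] at h
        · exact h
        · rw [List.flatten_append, List.length_append, List.flatten_singleton] at hkb
          omega
      · rw [List.append_nil]
        omega

theorem block {s0 bs a1 a2 r1 r2 : List (List Sym)} {l l' : ℕ} (h1 : s0 ++ bs = a1 ++ r1)
    (h2 : s0 ++ bs = a2 ++ r2) (hl : a1.flatten.length = l) (hl' : a2.flatten.length = l')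
    (hm : s0.flatten.length ≤ l) (hll : l < l') :
    ∃ a β c, bs = a ++ β :: c ∧ (s0 ++ a).flatten.length = l ∧ l + β.length ≤ l' := by
  -- a prefix of `s0 ++ bs` that extends `s0` and has length `l`
  have key : ∃ a r, bs = a ++ r ∧ (s0 ++ a).flatten.length = l := by
    rcases List.append_eq_append_iff.1 h1 with ⟨d, hd1, hd2⟩ | ⟨d, hd1, hd2⟩
    · exact ⟨d, r1, hd2, by rw [← hd1]; exact hl⟩
    · refine ⟨[], bs, rfl, ?_⟩
      rw [List.append_nil]
      refine le_antisymm hm ?_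
      rw [hd1, List.flatten_append, List.length_append, hl]
      exact Nat.le_add_right _ _
  obtain ⟨a, r, hr1, hr2⟩ := key
  rw [hr1, ← List.append_assoc] at h2
  rcases List.append_eq_append_iff.1 h2 with ⟨d, hd1, hd2⟩ | ⟨d, hd1, hd2⟩
  · rcases d with _ | ⟨β, d⟩
    · rw [List.append_nil] at hd1
      rw [hd1, hr2] at hl'
      omega
    · refine ⟨a, β, d ++ r2, by rw [hr1, hd2]; rfl, hr2, ?_⟩
      rw [hd1, List.flatten_append, List.length_append, hr2, List.flatten_cons,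
        List.length_append] at hl'
      omega
  · have h3 : (s0 ++ a).flatten.length = (a2 ++ d).flatten.length := by rw [hd1]
    rw [hr2, List.flatten_append, List.length_append, hl'] at h3
    omega

/-- common situation: a block of the generic real between two elements of `K` -/
theorem exists_block {E : Set Ω} {G : Set (Cd Ω)} (h : Gen S E G) {e : Ω} (hc : S.cat e = true)
    {p₀ : Cd Ω} (hp₀ : p₀ ∈ G) {l l' : ℕ} (hm : (p₀ e).word.length ≤ l) (hll : l < l')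
    (hl : gk G e l = true) (hl' : gk G e l' = true) : ∃ r ∈ G, S.Le r p₀ ∧ ∃ β : List Sym,
      l + β.length ≤ l' ∧ (∀ k, l ≤ k → ∀ x, β[k - l]? = some x → (r e).word[k]? = some x) ∧
      S.OkC (S.LeB e r) e (p₀ e).side l β := by
  obtain ⟨p1, hp1, a1, b1, ha1, hb1⟩ := gk_true.1 hl
  obtain ⟨p2, hp2, a2, b2, ha2, hb2⟩ := gk_true.1 hl'
  obtain ⟨r1, hr1, hr1a, hr1b⟩ := h.dir p₀ hp₀ p1 hp1
  obtain ⟨r, hr, hra, hrb⟩ := h.dir r1 hr1 p2 hp2
  obtain ⟨-, bs, hbs, hok⟩ := (hra.trans hr1a) e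
  obtain ⟨-, bs1, hbs1, -⟩ := (hra.trans hr1b) e
  obtain ⟨-, bs2, hbs2, -⟩ := hrb e
  have h1 : (p₀ e).stem ++ bs = a1 ++ (b1 ++ bs1) := by
    rw [← hbs, hbs1, ha1, List.append_assoc]
  have h2 : (p₀ e).stem ++ bs = a2 ++ (b2 ++ bs2) := by
    rw [← hbs, hbs2, ha2, List.append_assoc]
  obtain ⟨a, β, c, h3, h4, h5⟩ := block h1 h2 hb1 hb2 hm hll
  have h6 := hok a β c h3
  rw [if_pos hc, h4] at h6
  refine ⟨r, hr, hra.trans hr1a, β, h5, ?_, h6⟩
  intro k hk x hx
  have h7 : (r e).word = ((p₀ e).stem ++ a).flatten ++ (β ++ c.flatten) := by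
    rw [Ent.word, hbs, h3, ← List.append_assoc, List.flatten_append, List.flatten_cons]
  rw [h7, List.getElem?_append_right (by omega), h4, List.getElem?_append_left, hx]
  exact (List.getElem?_eq_some_iff.1 hx).1

end GC

/-- block GC: what the generic filter catches -/
theorem Gen.inf_gk {E : Set Ω} {G : Set (Cd Ω)} (h : Gen S E G) {e : Ω} (he : e ∈ E)
    (hv : S.Val e) : Inf (gk G e) := by
  intro m
  obtain ⟨p, hp, hm⟩ := h.len e he (fun _ => hv) m
  exact ⟨_, hm, GC.gk_true.2 ⟨p, hp, (p e).stem, [], (List.append_nil _).symm, rfl⟩⟩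

theorem Gen.caught_name {E : Set Ω} {G : Set (Cd Ω)} (h : Gen S E G) {e : Ω} (he : e ∈ E)
    (hv : S.Val e) {ν : Ω} (hν : ν ∈ E) (hn : S.Nme e ν) :
    Caught (rl S G (S.nam e)) (gk G e) (gr G e) (rl S G ν) := by
  obtain ⟨p₀, hp₀, hs⟩ := h.side e he hv ν hν hn
  refine ⟨(p₀ e).word.length, fun l l' hm hll hl hl' => ?_⟩
  obtain ⟨r, hr, hrp, β, hβ, hw, -, hok⟩ := GC.exists_block h hv.cat hp₀ hm hll hl hl'
  obtain ⟨u, v, h1, h2, h3, h4, h5, h6⟩ := hok ν hs
  refine ⟨u, v, h1, h2, h3.trans hβ, GC.rl_of_leB h hv.name hr h4,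
    GC.rl_of_leB h hv.name hr h5, fun k hk1 hk2 => ?_⟩
  obtain ⟨i, t, h7, h8⟩ := h6 k hk1 hk2
  rw [GC.rl_of_leB h hn hr h8, GC.gr_of h hr (hw k (h1.trans hk1) _ h7)]

theorem Gen.caught_late {E : Set Ω} {G : Set (Cd Ω)} (h : Gen S E G) {e : Ω} (he : e ∈ E)
    (hv : S.Val e) {α : Ω} (hα : α ∈ E) (hc : S.cat α = false) (heα : e < α)
    (hl : S.lab α ≤ S.lab e) :
    Caught (rl S G (S.nam e)) (gk G e) (gr G e) (gr G α) := by
  obtain ⟨p₀, hp₀, hs⟩ := h.prom α hα hc e he heα hv hl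
  refine ⟨max (p₀ e).word.length (p₀ α).word.length, fun l l' hm hll hl hl' => ?_⟩
  obtain ⟨r, hr, hrp, β, hβ, hw, hok, -⟩ :=
    GC.exists_block h hv.cat hp₀ ((le_max_left _ _).trans hm) hll hl hl'
  obtain ⟨u, v, h1, h2, h3, h4, h5, h6⟩ := hok
  refine ⟨u, v, h1, h2, h3.trans hβ, GC.rl_of_leB h hv.name hr h4,
    GC.rl_of_leB h hv.name hr h5, fun k hk1 hk2 => ?_⟩
  have h7 := hw k (h1.trans hk1) _ (h6 k hk1 hk2)
  rw [GC.gr_of h hr h7]
  refine GC.eq_false' fun h0 => ?_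
  obtain ⟨p, hp, t, h8⟩ := GC.gr_true.1 h0
  obtain ⟨r', hr', hr'p, hr'r⟩ := h.dir p hp r hr
  have h9 := GC.getElem?_of_prefix (hr'p.word α) h8
  have h10 := GC.getElem?_of_prefix (hr'r.word e) h7
  obtain ⟨-, bs, hbs, hok⟩ := (hr'r.trans hrp) α
  rw [Ent.word, hbs] at h9
  have hk : (p₀ α).stem.flatten.length ≤ k :=
    ((le_max_right _ _).trans hm).trans (h1.trans hk1)
  obtain ⟨a, β', c, h11, j, h12, h13⟩ := GC.find_block h9 hk
  have h14 := hok a β' c h11
  rw [if_neg (by rw [hc]; exact Bool.false_ne_true)] at h14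
  obtain ⟨i, hi⟩ := h14 j t h12 e hs heα
  rw [h13, h10] at hi
  simp at hi

/-- `ν` is the name of the generic real at `α` given by `exists_xname` -/
theorem Gen.gr_eq {E : Set Ω} {G : Set (Cd Ω)} (h : Gen S E G) {α ν : Ω}
    (hν : ∀ k n, ∃ t, ((S.dec ν k n).1 α).word[k]? = some ((S.dec ν k n).2, t))
    (hG : ∀ k, ∃ n, (S.dec ν k n).1 ∈ G) : gr G α = rl S G ν := by
  funext k
  obtain ⟨n, hn⟩ := hG k
  obtain ⟨t, ht⟩ := hν k n
  rw [GC.gr_of h hn ht]
  cases hb : (S.dec ν k n).2 with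
  | true => exact (GC.rl_true.2 ⟨n, hn, hb⟩).symm
  | false =>
    refine (GC.eq_false' fun h0 => ?_).symm
    obtain ⟨m, hm1, hm2⟩ := GC.rl_true.1 h0
    obtain ⟨t', ht'⟩ := hν k m
    have h1 := GC.word_compat h hn hm1 ht ht'
    rw [hb, hm2] at h1
    simp at h1

theorem Gen.mtch {E : Set Ω} {G : Set (Cd Ω)} (h : Gen S E G) {α : Ω} (hα : α ∈ E)
    (hc : S.cat α = false) {J j : Ω} (hJ : J ∈ E) (hj : j ∈ E) (hJn : S.Nme α J)
    (hJp : S.IsPart (S.CondB α) J) (hjn : S.Nme α j)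
    (hH : ∃ H : Hull Ω, S.Closed H ∧ J ∈ H.na ∧ j ∈ H.na ∧
      ∀ e ∈ H.co, S.cat e = true → S.lab e < S.lab α) :
    Mtch (rl S G J) (rl S G j) (gr G α) := by
  intro m
  obtain ⟨q, hq, u, v, h1, h2, h3, h4, h5, h6⟩ := h.mtc α hα hc J hJ j hj hJn hJp hjn hH m
  refine ⟨v, u, v, h1, h2, le_rfl, GC.rl_of h hJn hq h4, GC.rl_of h hJn hq h5,
    fun k hk1 hk2 => ?_⟩
  obtain ⟨i, t, h7, h8⟩ := h6 k hk1 hk2
  rw [GC.gr_of h hq h7, GC.rl_of h hjn hq h8]

end Pool.Agent.Helper60.MA
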