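import Pool.Agent.Helper42.MA.NN
import Pool.Agent.Helper60.MA.GDefs

/-!
# Block NM: codes of the reals of the model
-/

set_option linter.unusedSectionVars false
set_option linter.unusedVariables false

namespace Pool.Agent.Helper60.MA

open Pool.Agent.Helper96.Fc Cardinal Ordinal
open Pool.Agent.Helper89.FV (nat om Tab)

namespace NM

section

variable {P : Type} [PartialOrder P] [OrderTop P]

theorem nat_mem {X : Set (Obj P)} (hc : Clos X) (k : ℕ) :
    (Sum.inl (ordN P (k : Ordinal.{0})) : Obj P) ∈ X := by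
  induction k with
  | zero => rw [Nat.cast_zero]; exact hc.zero
  | succ k ih => rw [Nat.cast_succ]; exact hc.succ _ ih

theorem val_nat {X : Set (Obj P)} {G : Set P} (h : IsFilt X G) (hc : Clos X) (k : ℕ) :
    val X G (ordN P (k : Ordinal.{0})) = nat k := by
  induction k with
  | zero => rw [nat, Nat.cast_zero, val_ordN_zero h, toZFSet_zero]
  | succ k ih =>
    rw [Nat.cast_succ, val_ordN_succ h (nat_mem hc k), ih, nat, nat, Nat.cast_succ,
      toZFSet_add_one]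

theorem nat_inj {k n : ℕ} (h : nat k = nat n) : k = n := by
  have h1 := toZFSet_injective h
  exact_mod_cast h1

theorem nat_mem_om (k : ℕ) : nat k ∈ om := by
  rw [nat, om, toZFSet_mem_toZFSet_iff]
  exact natCast_lt_omega0 k

theorem mem_st {x : ℕ → Bool} {k : ℕ} : nat k ∈ st x ↔ x k = true := by
  rw [st, ZFSet.mem_sep]
  constructor
  · rintro ⟨-, n, h1, h2⟩
    rwa [nat_inj h2]
  · intro h
    exact ⟨nat_mem_om k, k, h, rfl⟩

end

variable {S : Sys Om La}

theorem lN_inj {z z' : La} (h : lN S z = lN S z') : z = z' := by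
  have h1 := ordN_inj' h
  have h2 := congrArg ToType.mk (Subtype.ext h1)
  simpa using h2

theorem cN_inj {e e' : Om} (h : cN S e = cN S e') : e = e' := by
  have h1 := ordN_inj' h
  have h2 := congrArg ToType.mk (Subtype.ext h1)
  simpa using h2

/-- the element of the forcing notion given by the condition `p` -/
abbrev mkP (p : Cd Om) (h : S.Cond p) : Pos S := ⟨p, h⟩

/-- the condition `p` forces that `k` belongs to a value of `φ` at `z` -/
def DD (S : Sys Om La) (φ : Nm (Pos S)) (z : La) (k : ℕ) (p : Pos S) : Prop :=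
  ∃ y : Nm (Pos S), FMem (pairN (lN S z) y) φ p ∧ FMem (ordN (Pos S) (k : Ordinal.{0})) y p

theorem DD.mono {φ : Nm (Pos S)} {z : La} {k : ℕ} {p q : Pos S} (h : DD S φ z k p)
    (hq : q ≤ p) : DD S φ z k q := by
  obtain ⟨y, h1, h2⟩ := h
  exact ⟨y, h1.mono hq, h2.mono hq⟩

theorem exists_nice (S : Sys Om La) (φ : Nm (Pos S)) : ∃ (e : Om) (ν : La → Om),
    (∀ z, S.Nme e (ν z)) ∧ ∀ z k n, ∃ h : S.Cond (S.dec (ν z) k n).1,
      ((S.dec (ν z) k n).2 = true → DD S φ z k (mkP _ h)) ∧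
      ((S.dec (ν z) k n).2 = false → ∀ r ≤ mkP _ h, ¬ DD S φ z k r) := by
  refine S.nice_names (Z := La) (by rw [mk_ord_toType]) (fun z k i p => ∃ h : S.Cond p,
    (i = true → DD S φ z k (mkP p h)) ∧ (i = false → ∀ r ≤ mkP p h, ¬ DD S φ z k r))
    ?_ ?_ ?_
  · rintro z k i p ⟨h, -⟩
    exact h
  · intro z k p hp
    by_cases h : ∃ r ≤ mkP p hp, DD S φ z k r
    · obtain ⟨r, hr, h1⟩ := h
      exact ⟨true, r.1, r.2, hr, r.2, fun _ => h1, fun h0 => absurd h0 (by decide)⟩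
    · push Not at h
      exact ⟨false, p, hp, Sys.Le.refl p, hp, fun h0 => absurd h0 (by decide), fun _ => h⟩
  · rintro z k i i' p p' r ⟨h1, h2, h3⟩ ⟨h4, h5, h6⟩ hr hrp hrp'
    have hle : mkP r hr ≤ mkP p h1 := hrp
    have hle' : mkP r hr ≤ mkP p' h4 := hrp'
    cases i <;> cases i'
    · rfl
    · exact (h3 rfl _ hle ((h5 rfl).mono hle')).elim
    · exact (h6 rfl _ hle' ((h2 rfl).mono hle)).elim
    · rfl

end NM

/-- block NM: codes of the reals of the model (of families of reals indexed by `ω₁`) -/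
theorem req_names (S : Sys Om La) : ∃ r : Req (Pos S), ∀ X G, Basic X G → Clos X →
    r.Sat X G → ∀ f ∈ Mod X G, ∃ e ∈ EX S X, ∃ ν : La → Om, (∀ z, S.Nme e (ν z)) ∧
      (∀ z, (Sum.inl (lN S z) : Obj (Pos S)) ∈ X → ν z ∈ EX S X) ∧
      ∀ z, (Sum.inl (lN S z) : Obj (Pos S)) ∈ X → ∀ x : ℕ → Bool,
        ZFSet.pair (val X G (lN S z)) (st x) ∈ f →
        (∀ y, ZFSet.pair (val X G (lN S z)) y ∈ f → y = st x) → rl S (raw G) (ν z) = x := by
  choose e ν hν hA using NM.exists_nice S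
  let r : Req (Pos S) :=
    { K := ℕ × Bool
      cK := inferInstance
      R := fun k p l => (k.2 = true ∧ ∃ (y φ : Nm (Pos S)) (z : La),
          l = [Sum.inl y, Sum.inl φ, Sum.inl (lN S z)] ∧ FMem (pairN (lN S z) y) φ p ∧
            FMem (ordN (Pos S) (k.1 : Ordinal.{0})) y p) ∨
        (k.2 = false ∧ ∃ (y : Obj (Pos S)) (ν : Om) (n : ℕ), l = [y, Sum.inl (cN S ν)] ∧
          S.Le p.1 (S.dec ν k.1 n).1)
      O := fun k l y => (∃ φ : Nm (Pos S), l = [Sum.inl φ] ∧ y = Sum.inl (cN S (e φ))) ∨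
        (∃ (φ : Nm (Pos S)) (z : La), l = [Sum.inl φ, Sum.inl (lN S z)] ∧
          y = Sum.inl (cN S (ν φ z)))
      hO := by
        rintro k l y y' (⟨φ, rfl, rfl⟩ | ⟨φ, z, rfl, rfl⟩) (⟨φ', h, rfl⟩ | ⟨φ', z', h, rfl⟩)
        · simp only [List.cons.injEq, Sum.inl.injEq, and_true] at h
          rw [h]
        · simp at h
        · simp at h
        · simp only [List.cons.injEq, Sum.inl.injEq, and_true] at h
          rw [h.1, NM.lN_inj h.2] }
  refine ⟨r, fun X G hb hc hr f hf => ?_⟩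
  obtain ⟨φ, hφ, rfl⟩ := hf
  have h1 : e φ ∈ EX S X := by
    refine hr.clo (0, true) [Sum.inl φ] _ ?_ (Or.inl ⟨φ, rfl, rfl⟩)
    intro a ha
    rw [List.mem_singleton] at ha
    rw [ha]
    exact hφ
  have h2 : ∀ z, (Sum.inl (lN S z) : Obj (Pos S)) ∈ X → ν φ z ∈ EX S X := by
    intro z hz
    refine hr.clo (0, true) [Sum.inl φ, Sum.inl (lN S z)] _ ?_ (Or.inr ⟨φ, z, rfl, rfl⟩)
    exact mem2 hφ hz
  refine ⟨e φ, h1, ν φ, hν φ, h2, ?_⟩
  intro z hz x hx hux
  funext k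
  -- a listed condition in `G`
  obtain ⟨n, hn⟩ : ∃ n, (S.dec (ν φ z) k n).1 ∈ raw G := by
    obtain ⟨p, hp, h3⟩ := hr.gen (k, false) [Sum.inl (cN S (ν φ z))] (by
      intro a ha
      rw [List.mem_singleton] at ha
      rw [ha]
      exact h2 z hz)
    rcases h3 with ⟨y, hy, h3⟩ | h3
    · rcases h3 with ⟨h3, -⟩ | ⟨-, y', ν', n, h4, h5⟩
      · exact absurd h3 Bool.false_ne_true
      · simp only [List.cons.injEq, Sum.inl.injEq, and_true] at h4
        have h6 := NM.cN_inj h4.2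
        subst h6
        obtain ⟨hcn, -, -⟩ := hA φ z k n
        exact ⟨n, hcn, hb.filt.up p hp ⟨_, hcn⟩ h5⟩
    · exfalso
      obtain ⟨n, q, hq, hqp, hqn⟩ := (hν φ z).pre k (Sys.cut (e φ) p.1) (p.2.cut (e φ))
      have h4 : S.LeB (e φ) q p.1 := Sys.LeB_cut_right.1 (hqp.leB _)
      obtain ⟨h5, h6, h7⟩ := Sys.mix_le' hq p.2 h4
      exact h3 ⟨_, h5⟩ h6 (Sum.inr p) (Or.inr ⟨rfl, _, ν φ z, n, rfl, h7.trans hqn⟩)
  obtain ⟨hcn, hnG⟩ := hn
  obtain ⟨hcn', hT, hF⟩ := hA φ z k n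
  obtain ⟨p, hp, h3⟩ := hr.gen (k, true) [Sum.inl φ, Sum.inl (lN S z)] (mem2 hφ hz)
  rcases h3 with ⟨y, hy, h3⟩ | h3
  · rcases h3 with ⟨-, y', φ', z', h4, h5, h6⟩ | ⟨h3, -⟩
    · simp only [List.cons.injEq, Sum.inl.injEq, and_true] at h4
      obtain ⟨rfl, rfl, h7⟩ := h4
      have h8 := NM.lN_inj h7
      subst h8
      -- the bit is `true`
      have h9 : ZFSet.pair (val X G (lN S z)) (val X G y') ∈ val X G φ := by
        rw [← val_pairN hb.filt hc hz hy]
        exact (hb.mem_iff (hc.pair hz hy) hφ).2 ⟨p, hp, h5⟩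
      have h10 : nat k ∈ st x := by
        rw [← hux _ h9, ← NM.val_nat hb.filt hc k]
        exact (hb.mem_iff (NM.nat_mem hc k) hy).2 ⟨p, hp, h6⟩
      rw [NM.mem_st.1 h10]
      have h11 : (S.dec (ν φ z) k n).2 = true := by
        by_contra h0
        rw [Bool.not_eq_true] at h0
        obtain ⟨s, -, hs1, hs2⟩ := hb.filt.compat hp hnG
        exact hF h0 s hs2 ⟨y', h5.mono hs1, h6.mono hs1⟩
      classical
      rw [rl, decide_eq_true_iff]
      exact ⟨n, ⟨hcn, hnG⟩, h11⟩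
    · exact absurd h3.symm Bool.false_ne_true
  · -- the bit is `false`
    have h4 : ∀ q ≤ p, ¬ NM.DD S φ z k q := by
      rintro q hq ⟨y, h5, h6⟩
      exact h3 q hq (Sum.inl y) (Or.inl ⟨rfl, y, φ, z, rfl, h5, h6⟩)
    have h5 : x k = false := by
      by_contra h0
      rw [Bool.not_eq_false] at h0
      have h6 := NM.mem_st.2 h0
      have h7 : st x ∈ Mod X G := by
        have h8 : ZFSet.pair (val X G (lN S z)) (st x) ∈ Mod X G :=
          Mod.trans' ⟨φ, hφ, rfl⟩ hx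
        have h9 : ({val X G (lN S z), st x} : ZFSet) ∈
            ZFSet.pair (val X G (lN S z)) (st x) := by
          rw [ZFSet.pair, ZFSet.mem_pair]
          exact Or.inr rfl
        have h10 := Mod.trans' h8 h9
        exact Mod.trans' h10 (by rw [ZFSet.mem_pair]; exact Or.inr rfl)
      obtain ⟨y, hy, hyx⟩ := h7
      rw [← hyx, ← val_pairN hb.filt hc hz hy] at hx
      obtain ⟨p1, hp1, h8⟩ := (hb.mem_iff (hc.pair hz hy) hφ).1 hx
      rw [← hyx, ← NM.val_nat hb.filt hc k] at h6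
      obtain ⟨p2, hp2, h9⟩ := (hb.mem_iff (NM.nat_mem hc k) hy).1 h6
      obtain ⟨s, hs, hs1, hs2⟩ := hb.filt.compat hp1 hp2
      obtain ⟨t, -, ht1, ht2⟩ := hb.filt.compat hs hp
      exact h4 t ht2 ⟨y, h8.mono (ht1.trans hs1), h9.mono (ht1.trans hs2)⟩
    rw [h5]
    by_contra h0
    rw [Bool.not_eq_false] at h0
    classical
    rw [rl, decide_eq_true_iff] at h0
    obtain ⟨m, ⟨hm1, hm2⟩, hm3⟩ := h0
    obtain ⟨hcm, hT', -⟩ := hA φ z k m
    obtain ⟨s, -, hs1, hs2⟩ := hb.filt.compat hp hm2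
    exact h4 s hs1 ((hT' hm3).mono hs2)

end Pool.Agent.Helper60.MA
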